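import Mathlib
import Pool.Agent.V11268.LucasFib

set_option autoImplicit false

namespace Pool.Agent.Results.MP_14f819_nt.OddLucas

open Polynomial IntermediateField Pool.Agent.V11268.Monogenic Pool.Agent.V11268.LucasFib

/-- The odd positive integers `n` such that every monic irreducible factor of the Lucas polynomial
`L n` in `ℤ[X]` is monogenic: only `n = 1`. -/
theorem result : {n : ℕ | Odd n ∧ ∀ f : ℤ[X], f.Monic → Irreducible (f.map (Int.castRingHom ℚ)) →
    f ∣ L n → Monogenic f} = {1} := by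
  ext n
  simp only [Set.mem_ofPred_eq, Set.mem_singleton_iff]
  constructor
  · rintro ⟨hn, hall⟩
    by_contra hn1
    have h1 : 1 < n := by
      obtain ⟨k, hk⟩ := hn
      omega
    have hn0 : n ≠ 0 := by omega
    have hζ := Complex.isPrimitiveRoot_exp n hn0
    set ζ := Complex.exp (2 * Real.pi * Complex.I / n) with hζdef
    have hζ0 : ζ ≠ 0 := hζ.ne_zero hn0
    obtain ⟨x, hx, hxint, hxnot⟩ := exists_not_mem hn h1 hζ
    have hζint : IsIntegral ℤ ζ := hζ.isIntegral (by omega)
    have hint : IsIntegral ℤ (ζ - ζ⁻¹) := by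
      refine hζint.sub ?_
      have := (hζ.inv).isIntegral (by omega)
      exact this
    have hroot : aeval (ζ - ζ⁻¹) (L n) = 0 := by
      rw [aeval_L ζ hζ0, hζ.pow_eq_one, hn.neg_pow, inv_pow, hζ.pow_eq_one]
      norm_num
    have hirr : Irreducible ((minpoly ℤ (ζ - ζ⁻¹)).map (Int.castRingHom ℚ)) := by
      have h2 := minpoly.isIntegrallyClosed_eq_field_fractions' ℚ hint
      have h3 : (Int.castRingHom ℚ) = algebraMap ℤ ℚ := rfl
      rw [h3, ← h2]
      exact minpoly.irreducible hint.tower_top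
    exact hxnot (hall _ (minpoly.monic hint) hirr (minpoly.isIntegrallyClosed_dvd hint hroot)
      (ζ - ζ⁻¹) (minpoly.aeval _ _) x hx hxint)
  · rintro rfl
    refine ⟨odd_one, fun f _ _ hdvd θ hθ x hx hxint => ?_⟩
    have h0 : θ = 0 := by
      have h1 := aeval_eq_zero_of_dvd_aeval_eq_zero hdvd hθ
      rw [L, aeval_X] at h1
      exact h1
    subst h0
    have hbot : ℚ⟮(0 : ℂ)⟯ = ⊥ := IntermediateField.adjoin_zero
    rw [hbot, IntermediateField.mem_bot] at hx
    obtain ⟨q, rfl⟩ := hx
    have hq : IsIntegral ℤ q := (isIntegral_algebraMap_iff (algebraMap ℚ ℂ).injective).mp hxint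
    obtain ⟨m, hm⟩ := IsIntegrallyClosed.isIntegral_iff.mp hq
    rw [← hm, ← IsScalarTower.algebraMap_apply]
    exact Subalgebra.algebraMap_mem _ _

end Pool.Agent.Results.MP_14f819_nt.OddLucas
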